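import Pool.Agent.Y116.UV.Defs
import Pool.Agent.U738.CX.FamDefs

/-!
# The schemes built from schemes of dimension at most `N`
-/

set_option autoImplicit false

open CategoryTheory AlgebraicGeometry Pool.Agent.Y116.UV Pool.Agent.U738.CX

namespace Pool.Agent.U738.SO

/-- The smallest class of schemes which contains
* (`dim`) the affine schemes `Spec S` of finite type over `R` of dimension at most `N`;
* (`terms`) the affine schemes of any dimension given by any set `G` of polynomials with at most two terms,
  with coefficients in such a ring `S`;
* (`graded`) the affine schemes of any dimension with an action of a diagonalizable group of complexity at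
  most `N`;
and is closed under isomorphisms, under cutting and pasting (if two of a closed subscheme `Z` of `X`, of
its complement `U` and of `X` are in the class, so is the third; `X` separated) and under products
of affine schemes with the affine line. -/
inductive Built {R : Type} [CommRing R] (N : ℕ) : Sch R → Prop
  | dim (S : Type) [CommRing S] [Algebra R S] [Algebra.FiniteType R S] :
      ringKrullDim S ≤ N → Built N (aff R S)
  | terms (S : Type) [CommRing S] [Algebra R S] [Algebra.FiniteType R S] (m : ℕ)
      (G : Set (MvPolynomial (Fin m) S)) : ringKrullDim S ≤ N → (∀ g ∈ G, g.support.card ≤ 2) →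
      Built N (aff R (MvPolynomial (Fin m) S ⧸ Ideal.span G))
  | graded (A : Type) [CommRing A] [Algebra R A] [Algebra.FiniteType R A] (Γ : Type)
      [AddCommGroup Γ] [DecidableEq Γ] (𝒜 : Γ → Submodule R A) [GradedAlgebra 𝒜] :
      ComplexityLE 𝒜 N → Built N (aff R A)
  | iso {X Y : Sch R} : FT True X → Nonempty (X ≅ Y) → Built N X → Built N Y
  | total {Z X U : Sch R} (i : Z ⟶ X) (j : U ⟶ X) : FT True X → IsTriple i j →
      Built N Z → Built N U → Built N X
  | closed {Z X U : Sch R} (i : Z ⟶ X) (j : U ⟶ X) : FT True X → IsTriple i j →
      Built N X → Built N U → Built N Z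
  | opened {Z X U : Sch R} (i : Z ⟶ X) (j : U ⟶ X) : FT True X → IsTriple i j →
      Built N Z → Built N X → Built N U
  | line (A : Type) [CommRing A] [Algebra R A] [Algebra.FiniteType R A] : Built N (aff R A) →
      Built N (aff R (Polynomial A))

end Pool.Agent.U738.SO
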