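import Pool.Agent.U252.AZ.Defs
import Pool.Agent.Y116.UV.Defs

/-!
# Soulé's identity for the order of the zeta function at the integers `n ≤ 0`: definitions
-/

set_option autoImplicit false

open CategoryTheory AlgebraicGeometry Pool.Agent.Y116.UV
open Pool.Agent.U252.AZ (zetaProduct)

namespace Pool.Agent.U738.SO

universe w

/-- `F` is meromorphic on `ℂ` and equal to the zeta function of `X` in some half plane. -/
def Continues (X : Sch ℤ) (F : ℂ → ℂ) : Prop :=
  MeromorphicOn F Set.univ ∧ ∃ σ : ℝ, ∀ s : ℂ, σ < s.re → F s = zetaProduct X.left s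

/-- The zeta function of `X` has a meromorphic continuation to `ℂ`, and (every) continuation has the order
`r` at `s = n`. -/
def HasOrder (X : Sch ℤ) (n r : ℤ) : Prop :=
  (∃ F, Continues X F) ∧ ∀ F, Continues X F → meromorphicOrderAt F (n : ℂ) = (r : WithTop ℤ)

/-- The number `∑ (-1)^(i + 1) dim B_i`. -/
noncomputable def alternating (B : ℤ → ModuleCat.{w} ℚ) : ℤ :=
  ∑ᶠ i : ℤ, ((i + 1).negOnePow : ℤ) * (Module.finrank ℚ (B i) : ℤ)

/-- All `B_i` have finite dimension, and almost all are zero. -/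
def IsFinite (B : ℤ → ModuleCat.{w} ℚ) : Prop :=
  (∀ i, Module.Finite ℚ (B i)) ∧ {i | Nontrivial (B i)}.Finite

/-- **Soulé's identity at all integers `n ≤ 0`.** `B n i X` is the rational motivic Borel-Moore homology
`CH_n(X, i) ⊗ ℚ = K'_i(X)^{(n)}` (for regular connected `X` of dimension `d`: `H^{2(d-n)-i}(X, ℚ(d-n))`);
for all `n ≤ 0` these spaces have finite dimension and almost all are zero, the zeta function of `X` has a
meromorphic continuation to `ℂ`, and its order at `s = n` is `∑ (-1)^(i + 1) dim B n i X`. -/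
def Soule (B : ℤ → ℤ → Sch ℤ → ModuleCat.{w} ℚ) (X : Sch ℤ) : Prop :=
  ∀ n : ℤ, n ≤ 0 → IsFinite (fun i => B n i X) ∧ HasOrder X n (alternating fun i => B n i X)

/-- The known properties of rational motivic Borel-Moore homology which are used. -/
structure IsHomology (B : ℤ → ℤ → Sch ℤ → ModuleCat.{w} ℚ) : Prop where
  /-- isomorphic schemes -/
  iso : ∀ (n i : ℤ) {X Y : Sch ℤ}, FT True X → Nonempty (X ≅ Y) → Nonempty (B n i X ≅ B n i Y)
  /-- the localization sequence of a closed subscheme and its complement -/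
  localization : ∀ (n : ℤ) {Z X U : Sch ℤ} (i : Z ⟶ X) (j : U ⟶ X), FT True X → IsTriple i j →
    ∃ (a : ∀ k, B n k Z ⟶ B n k X) (b : ∀ k, B n k X ⟶ B n k U) (d : ∀ k, B n (k + 1) U ⟶ B n k Z),
      ∀ k, Function.Exact (d k).hom (a k).hom ∧ Function.Exact (a k).hom (b k).hom ∧
        Function.Exact (b (k + 1)).hom (d k).hom
  /-- homotopy invariance: `CH_n(X × 𝔸¹, i) = CH_{n-1}(X, i)`, for `X = Spec A` -/
  line : ∀ (n i : ℤ) (A : Type) [CommRing A] [Algebra ℤ A] [Algebra.FiniteType ℤ A],
    Nonempty (B n i (aff ℤ (Polynomial A)) ≅ B (n - 1) i (aff ℤ A))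
  /-- the theorems of Dirichlet, Hecke, Weil, Borel and Harder: the affine schemes of dimension at most
  one -/
  curve : ∀ (A : Type) [CommRing A] [Algebra ℤ A] [Algebra.FiniteType ℤ A], ringKrullDim A ≤ 1 →
    Soule B (aff ℤ A)

end Pool.Agent.U738.SO
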