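import Pool.Agent.U738.SO.Defs

/-!
# Long exact sequences of rational vector spaces
-/

set_option autoImplicit false

open CategoryTheory AlgebraicGeometry

namespace Pool.Agent.U738.SO

universe w

section lin

variable {U V W : Type*} [AddCommGroup U] [Module ℚ U] [AddCommGroup V] [Module ℚ V]
  [AddCommGroup W] [Module ℚ W]

lemma fin_mid (f : U →ₗ[ℚ] V) (g : V →ₗ[ℚ] W) (h : Function.Exact f g) (hU : Module.Finite ℚ U)
    (hW : Module.Finite ℚ W) : Module.Finite ℚ V := by
  have e : LinearMap.ker g = LinearMap.range f := h.linearMap_ker_eq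
  have h1 : Module.Finite ℚ (LinearMap.ker g) := by
    rw [e]
    infer_instance
  have h2 : Module.Finite ℚ (V ⧸ LinearMap.ker g) := Module.Finite.equiv g.quotKerEquivRange.symm
  exact Module.Finite.of_submodule_quotient (LinearMap.ker g)

lemma sub_mid (f : U →ₗ[ℚ] V) (g : V →ₗ[ℚ] W) (h : Function.Exact f g) (hU : ¬ Nontrivial U)
    (hW : ¬ Nontrivial W) : ¬ Nontrivial V := by
  rw [not_nontrivial_iff_subsingleton] at hU hW ⊢
  refine ⟨fun x y => ?_⟩
  have h0 : ∀ x : V, x = 0 := by
    intro x
    obtain ⟨u, hu⟩ := (h x).mp (Subsingleton.elim _ _)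
    rw [← hu, Subsingleton.elim u 0, map_zero]
  rw [h0 x, h0 y]

lemma rank_mid [Module.Finite ℚ V] (f : U →ₗ[ℚ] V) (g : V →ₗ[ℚ] W) (h : Function.Exact f g) :
    Module.finrank ℚ V = Module.finrank ℚ (LinearMap.range f) +
      Module.finrank ℚ (LinearMap.range g) := by
  have e : LinearMap.ker g = LinearMap.range f := h.linearMap_ker_eq
  have := LinearMap.finrank_range_add_finrank_ker g
  rw [e] at this
  omega

lemma range_zero (f : U →ₗ[ℚ] V) (hU : ¬ Nontrivial U) :
    Module.finrank ℚ (LinearMap.range f) = 0 := by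
  rw [not_nontrivial_iff_subsingleton] at hU
  have : Subsingleton (LinearMap.range f) := by
    refine ⟨?_⟩
    rintro ⟨_, x, rfl⟩ ⟨_, y, rfl⟩
    exact Subtype.ext (congrArg f (Subsingleton.elim x y))
  exact Module.finrank_zero_of_subsingleton

end lin

/-- a long exact sequence -/
structure Les (Z X U : ℤ → ModuleCat.{w} ℚ) where
  a : ∀ k, Z k ⟶ X k
  b : ∀ k, X k ⟶ U k
  d : ∀ k, U (k + 1) ⟶ Z k
  da : ∀ k, Function.Exact (d k).hom (a k).hom
  ab : ∀ k, Function.Exact (a k).hom (b k).hom
  bd : ∀ k, Function.Exact (b (k + 1)).hom (d k).hom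

variable {Z X U : ℤ → ModuleCat.{w} ℚ}

lemma finite_shift {S : Set ℤ} (h : S.Finite) (c : ℤ) : {k | k + c ∈ S}.Finite :=
  h.preimage (add_left_injective c).injOn

namespace Les

variable (L : Les Z X U)

include L

lemma total (hZ : IsFinite Z) (hU : IsFinite U) : IsFinite X := by
  refine ⟨fun k => fin_mid _ _ (L.ab k) (hZ.1 k) (hU.1 k), (hZ.2.union hU.2).subset ?_⟩
  intro k hk
  by_contra h
  simp only [Set.mem_union, Set.mem_ofPred_eq, not_or] at h
  exact sub_mid _ _ (L.ab k) h.1 h.2 hk

lemma closed (hX : IsFinite X) (hU : IsFinite U) : IsFinite Z := by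
  refine ⟨fun k => fin_mid _ _ (L.da k) (hU.1 _) (hX.1 k),
    ((finite_shift hU.2 1).union hX.2).subset ?_⟩
  intro k hk
  by_contra h
  simp only [Set.mem_union, Set.mem_ofPred_eq, not_or] at h
  exact sub_mid _ _ (L.da k) h.1 h.2 hk

lemma opened (hZ : IsFinite Z) (hX : IsFinite X) : IsFinite U := by
  have key : ∀ k, (Module.Finite ℚ (X (k + 1)) → Module.Finite ℚ (Z k) →
      Module.Finite ℚ (U (k + 1))) ∧ (¬ Nontrivial (X (k + 1)) → ¬ Nontrivial (Z k) →
      ¬ Nontrivial (U (k + 1))) := fun k =>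
    ⟨fun h1 h2 => fin_mid _ _ (L.bd k) h1 h2, fun h1 h2 => sub_mid _ _ (L.bd k) h1 h2⟩
  constructor
  · intro k
    have := (key (k - 1)).1 (hX.1 _) (hZ.1 _)
    rwa [sub_add_cancel] at this
  · refine (hX.2.union (finite_shift hZ.2 (-1))).subset ?_
    intro k hk
    by_contra h
    simp only [Set.mem_union, Set.mem_ofPred_eq, not_or] at h
    have h1 := (key (k - 1)).2 (by rw [sub_add_cancel]; exact h.1) h.2
    rw [sub_add_cancel] at h1
    exact h1 hk

/-- additivity -/
lemma add (hZ : IsFinite Z) (hX : IsFinite X) (hU : IsFinite U) :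
    alternating X = alternating Z + alternating U := by
  classical
  let rd : ℤ → ℤ := fun k => (Module.finrank ℚ (LinearMap.range (L.d k).hom) : ℤ)
  have hfd : ∀ k, Module.Finite ℚ (Z k) := hZ.1
  have hfx : ∀ k, Module.Finite ℚ (X k) := hX.1
  have hfu : ∀ k, Module.Finite ℚ (U k) := hU.1
  have hU1 : ∀ k, (Module.finrank ℚ (U k) : ℤ) =
      Module.finrank ℚ (LinearMap.range (L.b k).hom) + rd (k - 1) := by
    intro k
    obtain ⟨m, rfl⟩ : ∃ m, k = m + 1 := ⟨k - 1, by ring⟩
    have := rank_mid _ _ (L.bd m)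
    rw [this, add_sub_cancel_right]
    push_cast
    rfl
  have hZ1 : ∀ k, (Module.finrank ℚ (Z k) : ℤ) =
      rd k + Module.finrank ℚ (LinearMap.range (L.a k).hom) := by
    intro k
    have := rank_mid _ _ (L.da k)
    rw [this]
    push_cast
    rfl
  have hX1 : ∀ k, (Module.finrank ℚ (X k) : ℤ) =
      Module.finrank ℚ (LinearMap.range (L.a k).hom) +
        Module.finrank ℚ (LinearMap.range (L.b k).hom) := by
    intro k
    have := rank_mid _ _ (L.ab k)
    rw [this]
    push_cast
    rfl
  have hrd : (Function.support fun k : ℤ => (k.negOnePow : ℤ) * rd (k - 1)).Finite := by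
    refine hU.2.subset fun k hk => ?_
    by_contra h
    apply hk
    have h1 := hU1 k
    have h2 : Module.finrank ℚ (U k) = 0 := by
      rw [Set.mem_ofPred_eq, not_nontrivial_iff_subsingleton] at h
      exact Module.finrank_zero_of_subsingleton
    have h3 : rd (k - 1) = 0 := by
      have h4 : 0 ≤ rd (k - 1) := Int.natCast_nonneg _
      rw [h2] at h1
      push_cast at h1
      omega
    simp [h3]
  have sup : ∀ {V : ℤ → ModuleCat.{w} ℚ}, IsFinite V →
      (Function.support fun i : ℤ => ((i + 1).negOnePow : ℤ) * (Module.finrank ℚ (V i) : ℤ)).Finite := by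
    intro V hV
    refine hV.2.subset fun k hk => ?_
    by_contra h
    apply hk
    rw [Set.mem_ofPred_eq, not_nontrivial_iff_subsingleton] at h
    have : Module.finrank ℚ (V k) = 0 := Module.finrank_zero_of_subsingleton
    simp [this]
  have htel : (∑ᶠ k : ℤ, ((k.negOnePow : ℤ) * rd (k - 1))) =
      ∑ᶠ k : ℤ, (((k + 1).negOnePow : ℤ) * rd k) := by
    rw [← finsum_comp_equiv (Equiv.addRight (1 : ℤ))]
    refine finsum_congr fun k => ?_
    simp
  have hrd' : (Function.support fun k : ℤ => ((k + 1).negOnePow : ℤ) * rd k).Finite := by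
    have := finite_shift hrd 1
    refine this.subset fun k hk => ?_
    simp only [Set.mem_ofPred_eq, Function.mem_support] at hk ⊢
    simpa using hk
  have e1 : alternating Z + alternating U = alternating X +
      ((∑ᶠ k : ℤ, (((k + 1).negOnePow : ℤ) * rd k)) - ∑ᶠ k : ℤ, ((k.negOnePow : ℤ) * rd (k - 1))) := by
    unfold alternating
    rw [← finsum_add_distrib (sup hZ) (sup hU), ← finsum_sub_distrib hrd' hrd,
      ← finsum_add_distrib (sup hX)]
    · refine finsum_congr fun k => ?_
      rw [hU1, hZ1, hX1, Int.negOnePow_succ]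
      push_cast
      ring
    · exact (hrd'.union hrd).subset (Function.support_sub _ _)
  rw [e1, htel, sub_self, add_zero]

end Les

lemma IsFinite.iso {B C : ℤ → ModuleCat.{w} ℚ} (e : ∀ i, Nonempty (B i ≅ C i)) (h : IsFinite B) :
    IsFinite C := by
  constructor
  · intro i
    have := h.1 i
    exact Module.Finite.equiv (e i).some.toLinearEquiv
  · refine h.2.subset fun i hi => ?_
    have : Nontrivial (C i) := hi
    exact (e i).some.toLinearEquiv.toEquiv.nontrivial

lemma alternating_iso {B C : ℤ → ModuleCat.{w} ℚ} (e : ∀ i, Nonempty (B i ≅ C i)) :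
    alternating B = alternating C := by
  unfold alternating
  refine finsum_congr fun i => ?_
  rw [(e i).some.toLinearEquiv.finrank_eq]

end Pool.Agent.U738.SO
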