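import Pool.Agent.U738.SO.Defs
import Pool.Agent.Q193.Zeta.Prod
import Pool.Agent.U738.BN.Bnd

/-!
# Orders of zeta functions
-/

set_option autoImplicit false

open CategoryTheory AlgebraicGeometry Pool.Agent.Y116.UV Filter Topology
open Pool.Agent.U252.AZ (zetaProduct)
open Pool.Agent.Q193.Zeta (zeta zeta_triple zeta_torus zeta_iso ft_closed ft_open Near)
open Pool.Agent.U738.BN (lauAway polyQuot)

namespace Pool.Agent.U738.SO

lemma order_unique {X : Sch ℤ} {F G : ℂ → ℂ} (hF : Continues X F) (hG : Continues X G) (z : ℂ) :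
    meromorphicOrderAt F z = meromorphicOrderAt G z := by
  obtain ⟨mF, σ, eF⟩ := hF
  obtain ⟨mG, τ, eG⟩ := hG
  have mH : MeromorphicOn (F - G) Set.univ := mF.sub mG
  have hU : IsConnected (Set.univ : Set ℂ) := isConnected_univ
  have h1 := mH.exists_meromorphicOrderAt_ne_top_iff_forall hU
  have h2 : meromorphicOrderAt (F - G) z = ⊤ := by
    by_contra h
    have h3 := h1.mp ⟨⟨z, trivial⟩, h⟩ ⟨((max σ τ + 1 : ℝ) : ℂ), trivial⟩
    apply h3
    rw [meromorphicOrderAt_eq_top_iff]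
    refine Filter.Eventually.filter_mono nhdsWithin_le_nhds ?_
    have hev : ∀ᶠ s : ℂ in 𝓝 (((max σ τ + 1 : ℝ) : ℂ)), max σ τ < s.re :=
      (Complex.continuous_re.tendsto _).eventually (lt_mem_nhds (by simp))
    filter_upwards [hev] with s hs
    have a1 := eF s (lt_of_le_of_lt (le_max_left _ _) hs)
    have a2 := eG s (lt_of_le_of_lt (le_max_right _ _) hs)
    change F s - G s = 0
    rw [a1, a2, sub_self]
  rw [meromorphicOrderAt_eq_top_iff] at h2
  refine meromorphicOrderAt_congr ?_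
  filter_upwards [h2] with s hs
  exact sub_eq_zero.mp hs

lemma hasOrder_iff {X : Sch ℤ} {n r : ℤ} : HasOrder X n r ↔
    ∃ F, Continues X F ∧ meromorphicOrderAt F (n : ℂ) = (r : WithTop ℤ) := by
  constructor
  · rintro ⟨⟨F, hF⟩, h⟩
    exact ⟨F, hF, h F hF⟩
  · rintro ⟨F, hF, h⟩
    exact ⟨⟨F, hF⟩, fun G hG => (order_unique hG hF _).trans h⟩

lemma ft_false {X : Sch ℤ} (h : FT True X) : FT False X :=
  ⟨h.locallyOfFiniteType, h.quasiCompact, fun h => h.elim⟩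

lemma continues_near {X Y : Sch ℤ} {F G : ℂ → ℂ} (hF : Continues X F)
    (hG : MeromorphicOn G Set.univ)
    (h : ∃ τ : ℝ, ∀ s : ℂ, τ < s.re → (F s = zeta X.left s → G s = zeta Y.left s)) :
    Continues Y G := by
  obtain ⟨mF, σ, eF⟩ := hF
  obtain ⟨τ, h⟩ := h
  exact ⟨hG, max σ τ, fun s hs => h s (lt_of_le_of_lt (le_max_right _ _) hs)
    (eF s (lt_of_le_of_lt (le_max_left _ _) hs))⟩

lemma HasOrder.iso {X Y : Sch ℤ} {n r : ℤ} (hX : FT False X) (e : Nonempty (X ≅ Y))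
    (h : HasOrder X n r) : HasOrder Y n r := by
  rw [hasOrder_iff] at h ⊢
  obtain ⟨F, hF, h⟩ := h
  obtain ⟨τ, hτ⟩ := zeta_iso hX e
  exact ⟨F, continues_near hF hF.1 ⟨τ, fun s hs h1 => h1.trans (hτ s hs)⟩, h⟩

section triple

variable {Z X U : Sch ℤ} {i : Z ⟶ X} {j : U ⟶ X} {n r r' : ℤ}

lemma triple_data (hX : FT False X) (ht : IsTriple i j) :
    ∃ τ : ℝ, ∀ s : ℂ, τ < s.re → zeta X.left s = zeta Z.left s * zeta U.left s ∧
      zeta Z.left s ≠ 0 ∧ zeta U.left s ≠ 0 :=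
  zeta_triple hX (ft_closed i hX ht.closed) (ft_open j hX ht.opened) ht

lemma order_total (hX : FT False X) (ht : IsTriple i j) (hZ : HasOrder Z n r)
    (hU : HasOrder U n r') : HasOrder X n (r + r') := by
  rw [hasOrder_iff] at hZ hU ⊢
  obtain ⟨F, hF, h1⟩ := hZ
  obtain ⟨G, hG, h2⟩ := hU
  obtain ⟨τ, hτ⟩ := triple_data hX ht
  refine ⟨F * G, ⟨hF.1.mul hG.1, ?_⟩, ?_⟩
  · obtain ⟨σ, hσ⟩ := hF.2
    obtain ⟨σ', hσ'⟩ := hG.2
    refine ⟨max τ (max σ σ'), fun s hs => ?_⟩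
    have c1 : τ < s.re := lt_of_le_of_lt (le_max_left _ _) hs
    have c2 : σ < s.re := lt_of_le_of_lt ((le_max_left _ _).trans (le_max_right _ _)) hs
    have c3 : σ' < s.re := lt_of_le_of_lt ((le_max_right _ _).trans (le_max_right _ _)) hs
    change F s * G s = zeta X.left s
    rw [(hτ s c1).1, hσ s c2, hσ' s c3]
    rfl
  · rw [meromorphicOrderAt_mul (hF.1 _ trivial) (hG.1 _ trivial), h1, h2]
    rfl

lemma order_inv {F : ℂ → ℂ} {z : ℂ} {r : ℤ} (h : meromorphicOrderAt F z = (r : WithTop ℤ)) :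
    meromorphicOrderAt F⁻¹ z = ((-r : ℤ) : WithTop ℤ) := by
  rw [meromorphicOrderAt_inv, h]
  rfl

lemma order_closed (hX : FT False X) (ht : IsTriple i j) (hU : HasOrder U n r)
    (hX' : HasOrder X n r') : HasOrder Z n (r' - r) := by
  rw [hasOrder_iff] at hX' hU ⊢
  obtain ⟨F, hF, h1⟩ := hX'
  obtain ⟨G, hG, h2⟩ := hU
  obtain ⟨τ, hτ⟩ := triple_data hX ht
  refine ⟨F * G⁻¹, ⟨hF.1.mul hG.1.inv, ?_⟩, ?_⟩
  · obtain ⟨σ, hσ⟩ := hF.2
    obtain ⟨σ', hσ'⟩ := hG.2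
    refine ⟨max τ (max σ σ'), fun s hs => ?_⟩
    have c1 : τ < s.re := lt_of_le_of_lt (le_max_left _ _) hs
    have c2 : σ < s.re := lt_of_le_of_lt ((le_max_left _ _).trans (le_max_right _ _)) hs
    have c3 : σ' < s.re := lt_of_le_of_lt ((le_max_right _ _).trans (le_max_right _ _)) hs
    change F s * (G s)⁻¹ = zeta Z.left s
    have e1 : F s = zeta X.left s := hσ s c2
    have e2 : G s = zeta U.left s := hσ' s c3
    rw [e1, e2, (hτ s c1).1, mul_assoc, mul_inv_cancel₀ (hτ s c1).2.2, mul_one]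
  · rw [meromorphicOrderAt_mul (hF.1 _ trivial) (hG.1.inv _ trivial), h1, order_inv h2,
      sub_eq_add_neg]
    rfl

lemma order_opened (hX : FT False X) (ht : IsTriple i j) (hZ : HasOrder Z n r)
    (hX' : HasOrder X n r') : HasOrder U n (r' - r) := by
  rw [hasOrder_iff] at hX' hZ ⊢
  obtain ⟨F, hF, h1⟩ := hX'
  obtain ⟨G, hG, h2⟩ := hZ
  obtain ⟨τ, hτ⟩ := triple_data hX ht
  refine ⟨F * G⁻¹, ⟨hF.1.mul hG.1.inv, ?_⟩, ?_⟩
  · obtain ⟨σ, hσ⟩ := hF.2
    obtain ⟨σ', hσ'⟩ := hG.2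
    refine ⟨max τ (max σ σ'), fun s hs => ?_⟩
    have c1 : τ < s.re := lt_of_le_of_lt (le_max_left _ _) hs
    have c2 : σ < s.re := lt_of_le_of_lt ((le_max_left _ _).trans (le_max_right _ _)) hs
    have c3 : σ' < s.re := lt_of_le_of_lt ((le_max_right _ _).trans (le_max_right _ _)) hs
    change F s * (G s)⁻¹ = zeta U.left s
    have e1 : F s = zeta X.left s := hσ s c2
    have e2 : G s = zeta Z.left s := hσ' s c3
    rw [e1, e2, (hτ s c1).1, mul_comm (zeta Z.left s), mul_assoc, mul_inv_cancel₀ (hτ s c1).2.1,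
      mul_one]
  · rw [meromorphicOrderAt_mul (hF.1 _ trivial) (hG.1.inv _ trivial), h1, order_inv h2,
      sub_eq_add_neg]
    rfl

end triple

section line

variable (A : Type) [CommRing A] [Algebra ℤ A] [Algebra.FiniteType ℤ A]

instance poly_ft : Algebra.FiniteType ℤ (Polynomial A) :=
  Algebra.FiniteType.trans (S := A) inferInstance inferInstance

/-- the zeta function of `X × 𝔸¹` -/
lemma zeta_line : ∃ τ : ℝ, ∀ s : ℂ, τ < s.re →
    zeta (aff ℤ (Polynomial A)).left s = zeta (aff ℤ A).left (s - 1) := by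
  have hf : Algebra.FiniteType ℤ (Localization.Away (Polynomial.X : Polynomial A)) :=
    Algebra.FiniteType.trans (S := Polynomial A) inferInstance inferInstance
  obtain ⟨τ₁, h1⟩ := triple_data (X := aff ℤ (Polynomial A)) (ft_aff False)
    (triple_away (Polynomial.X : Polynomial A))
  obtain ⟨τ₂, h2⟩ := zeta_iso (X := aff ℤ (Polynomial A ⧸ Ideal.span {(Polynomial.X : Polynomial A)}))
    (ft_aff False) ⟨(affIso (polyQuot ℤ A)).symm⟩
  obtain ⟨τ₃, h3⟩ := zeta_iso (X := aff ℤ (Localization.Away (Polynomial.X : Polynomial A)))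
    (ft_aff False) ⟨(affIso (lauAway ℤ A)).symm⟩
  obtain ⟨τ₄, -, h4⟩ := zeta_torus A
  refine ⟨max (max τ₁ τ₂) (max τ₃ τ₄), fun s hs => ?_⟩
  have c1 : τ₁ < s.re := lt_of_le_of_lt ((le_max_left _ _).trans (le_max_left _ _)) hs
  have c2 : τ₂ < s.re := lt_of_le_of_lt ((le_max_right _ _).trans (le_max_left _ _)) hs
  have c3 : τ₃ < s.re := lt_of_le_of_lt ((le_max_left _ _).trans (le_max_right _ _)) hs
  have c4 : τ₄ < s.re := lt_of_le_of_lt ((le_max_right _ _).trans (le_max_right _ _)) hs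
  rw [(h1 s c1).1, h2 s c2, h3 s c3, h4 s c4, mul_comm]

lemma order_line {n r : ℤ} (h : HasOrder (aff ℤ A) (n - 1) r) :
    HasOrder (aff ℤ (Polynomial A)) n r := by
  rw [hasOrder_iff] at h ⊢
  obtain ⟨F, hF, h1⟩ := h
  obtain ⟨τ, hτ⟩ := zeta_line A
  refine ⟨F ∘ (· - 1), ⟨?_, ?_⟩, ?_⟩
  · intro z _
    exact (hF.1 (z - 1) trivial).comp_analyticAt (g := fun s => s - 1) (x := z) (by fun_prop)
  · obtain ⟨σ, hσ⟩ := hF.2
    refine ⟨max τ (σ + 1), fun s hs => ?_⟩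
    have c1 : τ < s.re := lt_of_le_of_lt (le_max_left _ _) hs
    have c2 : σ < (s - 1).re := by
      have := lt_of_le_of_lt (le_max_right _ _) hs
      rw [Complex.sub_re, Complex.one_re]
      linarith
    change F (s - 1) = zeta _ s
    rw [hτ s c1, hσ _ c2]
    rfl
  · rw [meromorphicOrderAt_comp_sub_const_eq_meromorphicOrderAt]
    rw [← h1]
    push_cast
    rfl

end line

end Pool.Agent.U738.SO
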