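import Pool.Agent.U738.SO.BDefs
import Pool.Agent.U738.SO.Les
import Pool.Agent.U738.SO.Zt
import Pool.Agent.U738.CX.Fam

/-!
# Soulé's identity for the schemes built from schemes of small dimension
-/

set_option autoImplicit false

open CategoryTheory AlgebraicGeometry Pool.Agent.Y116.UV Pool.Agent.U738.BN Pool.Agent.U738.CX

namespace Pool.Agent.U738.SO

universe w

variable {B : ℤ → ℤ → Sch ℤ → ModuleCat.{w} ℚ}

lemma soule_iso (h : IsHomology B) {X Y : Sch ℤ} (hX : FT True X) (e : Nonempty (X ≅ Y))
    (hP : Soule B X) : Soule B Y := by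
  intro n hn
  have e1 : ∀ i, Nonempty (B n i X ≅ B n i Y) := fun i => h.iso n i hX e
  refine ⟨(hP n hn).1.iso e1, ?_⟩
  have h1 := (hP n hn).2
  rw [alternating_iso e1] at h1
  exact h1.iso (ft_false hX) e

/-- the long exact sequence -/
noncomputable def les (h : IsHomology B) (n : ℤ) {Z X U : Sch ℤ} {i : Z ⟶ X} {j : U ⟶ X}
    (hX : FT True X) (ht : IsTriple i j) :
    Les (fun k => B n k Z) (fun k => B n k X) (fun k => B n k U) :=
  let H := h.localization n i j hX ht
  { a := H.choose
    b := H.choose_spec.choose
    d := H.choose_spec.choose_spec.choose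
    da := fun k => (H.choose_spec.choose_spec.choose_spec k).1
    ab := fun k => (H.choose_spec.choose_spec.choose_spec k).2.1
    bd := fun k => (H.choose_spec.choose_spec.choose_spec k).2.2 }

section triple

variable {Z X U : Sch ℤ} {i : Z ⟶ X} {j : U ⟶ X}

lemma soule_total (h : IsHomology B) (hX : FT True X) (ht : IsTriple i j) (hZ : Soule B Z)
    (hU : Soule B U) : Soule B X := by
  intro n hn
  have L := les h n hX ht
  have f := L.total (hZ n hn).1 (hU n hn).1
  refine ⟨f, ?_⟩
  rw [L.add (hZ n hn).1 f (hU n hn).1]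
  exact order_total (ft_false hX) ht (hZ n hn).2 (hU n hn).2

lemma soule_closed (h : IsHomology B) (hX : FT True X) (ht : IsTriple i j) (hX' : Soule B X)
    (hU : Soule B U) : Soule B Z := by
  intro n hn
  have L := les h n hX ht
  have f := L.closed (hX' n hn).1 (hU n hn).1
  refine ⟨f, ?_⟩
  have e := L.add f (hX' n hn).1 (hU n hn).1
  have e' : alternating (fun k => B n k Z) =
      alternating (fun k => B n k X) - alternating (fun k => B n k U) := by
    rw [e]
    ring
  rw [e']
  exact order_closed (ft_false hX) ht (hU n hn).2 (hX' n hn).2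

lemma soule_opened (h : IsHomology B) (hX : FT True X) (ht : IsTriple i j) (hZ : Soule B Z)
    (hX' : Soule B X) : Soule B U := by
  intro n hn
  have L := les h n hX ht
  have f := L.opened (hZ n hn).1 (hX' n hn).1
  refine ⟨f, ?_⟩
  have e := L.add (hZ n hn).1 (hX' n hn).1 f
  have e' : alternating (fun k => B n k U) =
      alternating (fun k => B n k X) - alternating (fun k => B n k Z) := by
    rw [e]
    ring
  rw [e']
  exact order_opened (ft_false hX) ht (hZ n hn).2 (hX' n hn).2

end triple

lemma soule_line (h : IsHomology B) (A : Type) [CommRing A] [Algebra ℤ A]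
    [Algebra.FiniteType ℤ A] (hA : Soule B (aff ℤ A)) : Soule B (aff ℤ (Polynomial A)) := by
  intro n hn
  have e : ∀ i, Nonempty (B (n - 1) i (aff ℤ A) ≅ B n i (aff ℤ (Polynomial A))) :=
    fun i => (h.line n i A).map Iso.symm
  have h1 := hA (n - 1) (by omega)
  refine ⟨h1.1.iso e, ?_⟩
  have h2 := order_line A h1.2
  rwa [alternating_iso e] at h2

theorem posD (h : IsHomology B) {N : WithBot ℕ∞} (hN : ForDimension N (Soule B)) :
    PosD True (Soule B) N where
  iso hX e hP := soule_iso h hX e hP
  total _ _ hX ht hZ hU := soule_total h hX ht hZ hU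
  times A _ _ _ hA := times_of_line (sep := True) (fun hX e hP => soule_iso h hX e hP)
    (fun _ _ hX ht hZ hX' => soule_opened h hX ht hZ hX') (soule_line h A hA) hA
  dim := hN

theorem built (h : IsHomology B) {N : ℕ} (hN : ForDimension N (Soule B)) {X : Sch ℤ}
    (hX : Built N X) : Soule B X := by
  have hP := posD h hN
  induction hX with
  | dim S hS => exact hN S hS
  | terms S m G hS hG => exact two_terms hP S hS m G hG
  | graded A Γ 𝒜 hd => exact for_complexity hP A Γ 𝒜 hd
  | iso hX e _ ih => exact soule_iso h hX e ih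
  | total i j hX ht _ _ ih1 ih2 => exact soule_total h hX ht ih1 ih2
  | closed i j hX ht _ _ ih1 ih2 => exact soule_closed h hX ht ih1 ih2
  | opened i j hX ht _ _ ih1 ih2 => exact soule_opened h hX ht ih1 ih2
  | line A _ ih => exact soule_line h A ih

end Pool.Agent.U738.SO
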